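import Pool.Agent.Q187.Par.Fin

/-!
# Perfectness of the intersection pairing in codimension `n`: products of `2n` factors

Let `𝒮` be a family of smooth projective varieties over the field with `q` elements whose
homologically trivial self-correspondences of degree zero are nilpotent (for instance all curves).
Then the pairing `CH^n(Z)_ℝ × CH^(d-n)(Z)_ℝ → ℝ` is perfect for all products `Z` of members of `𝒮`,
and even for all varieties whose motives are direct factors of sums of effective twists of such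
products, if (and only if) it is perfect for the products of exactly `2n` members.
-/

set_option autoImplicit false

open CategoryTheory AlgebraicGeometry

universe u v w

namespace Pool.Agent.Results.MP_4960c7_ag.MiddleCodimension

open Pool.Agent.H914 Pool.Agent.H914.VarClass Pool.Agent.H914.VarClass.Obj
  Pool.Agent.W492.BB Pool.Agent.TH133 Pool.Agent.Q56.CP Pool.Agent.Y154.BQ Q187.Par

/-- **Perfectness in codimension `n`.** -/
theorem result {k : Type u} [Field k] {𝒱 : VarClass k} {C : TheoryData.{u, v, 0} 𝒱 ℚ}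
    [IsChowProj C] {K : Type w} [Field K] [CharZero K] {H : WeilTheoryData.{u, v, w} C K}
    [IsWeilProj H] {Fr : ∀ X : 𝒱.Obj, X ⟶ X} {q : ℕ} (hq : 1 < q) (hFr : IsFrob H Fr q)
    {𝒮 : Set 𝒱.Obj} (hN : ∀ X ∈ 𝒮, Nilp H X) {n : ℕ} (hn : 1 ≤ n) :
    (∀ s : ℕ, 1 ≤ s → s ≤ 2 * n → (∀ X ∈ 𝒮, Conn H s X) →
      ((∀ m, 1 ≤ m → ∀ Z, IsProdOf 𝒮 m Z → PerfectIn C Z n) ↔
        ∀ Z, IsProdOf 𝒮 (2 * n / s) Z → PerfectIn C Z n)) ∧
    ((∃ X ∈ 𝒮, 0 < X.dim) →
      ((∀ Z, IsEffFactor C 𝒮 Z → ∀ j : ℤ, j ≤ n → PerfectIn C Z j) ↔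
        ∀ Z, IsProdOf 𝒮 (2 * n) Z → PerfectIn C Z n)) :=
  perfect_exact hq hFr hN hn

end Pool.Agent.Results.MP_4960c7_ag.MiddleCodimension
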