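import Pool.Agent.Q200.HP.Num

/-!
# Rational and numerical equivalence for products of hypersurfaces over finite fields

Let `k` be an algebraic closure of a finite field, of characteristic `p`. (A smooth projective variety
over a finite field satisfies Beilinson's conjecture if the numerically trivial cycles on the variety
over `k` are torsion.) We prove that numerically trivial cycles are torsion on all products
`X_1 × ⋯ × X_r` of smooth hypersurfaces of degrees prime to `p`, in all codimensions, as soon as this
is true in the *middle* codimension for the *single* hypersurfaces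

  `W : f(x_0, …, x_(a+1)) + (y_1^d - z_1^d) + ⋯ + (y_k^d - z_k^d) = 0`, `a ≤ ω(n)`,

of even dimension `n`; here `ω` is any function which tends to infinity, however slowly, and the pairs
`(n, d)` are restricted to any set with arbitrarily large even `n` and arbitrarily divisible `d`
prime to `p`.
-/

open CategoryTheory MonoidalCategory

universe v u w

namespace Pool.Agent.Results.MP_4960c7_ag.ProductsOfHypersurfaces

open Pool.Agent.Q28.HJ (pow)
open Pool.Agent.Q200.HP

/-- **Rational and numerical equivalence for products of hypersurfaces over finite fields.** Let `T`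
be the Chow motives with rational coefficients over an algebraic closure of a finite field of
characteristic `p`, the smooth hypersurfaces of degrees prime to `p` and the numerically trivial
cycles (`hT`: known facts). Let `S` be a set of pairs `(n, d)` which contains, for all `N` and all `D`
prime to `p`, a pair with `n ≥ N` even, `D ∣ d` and `d` prime to `p`, and let `ω : ℕ → ℕ` tend to
infinity. The following statements are equivalent.

1. The numerically trivial cycles in `CH^(n/2)(W)`, `n = dim W`, are zero, for all hypersurfaces `W`
  of even dimension with `(dim W, deg W) ∈ S` which are iterated suspensions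
  `f(x) + (y_1^d - z_1^d) + ⋯ = 0` of hypersurfaces `X : f(x) = 0` with `dim X ≤ ω(dim W)`.
2. For all tensor products `M` of primitive motives of smooth hypersurfaces, of weight `N`:
  `CH^i(M) = 0` if `2 i ≠ N`, and the numerically trivial cycles in `CH^i(M)` are zero if `2 i = N`.
3. The numerically trivial cycles in `CH^i(M)` are zero, for all `i` and all motives `M` which are
  obtained from motives of smooth hypersurfaces, the unit and the Lefschetz motive by tensor products,
  direct sums and direct summands; in particular for all products `X_1 × ⋯ × X_r`.
4. All numerically trivial morphisms (correspondences modulo rational equivalence) between such motives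
  are zero. -/
theorem result {𝓜 : Type u} [Category.{v} 𝓜] [Preadditive 𝓜] [MonoidalCategory 𝓜]
    [MonoidalPreadditive 𝓜] [Linear ℚ 𝓜] [BraidedCategory 𝓜] {T : NumMot.{v, u, w} 𝓜}
    (hT : T.Facts) (S : Set (ℕ × ℕ)) (hS : EvenPairs T.p S) (ω : ℕ → ℕ)
    (hω : Filter.Tendsto ω Filter.atTop Filter.atTop) :
    [∀ X W : T.Hyp, Relation.ReflTransGen T.Susp X W → (T.dim W, T.deg W) ∈ S →
        T.dim X ≤ ω (T.dim W) → ∀ m, 2 * m = T.dim W → T.RatNum m (T.mot W),
      ∀ (N : ℕ) (M : 𝓜), T.IsProd N M → (∀ i, 2 * i ≠ N → ∀ f : pow T.L i ⟶ M, f = 0) ∧
        ∀ i, 2 * i = N → T.RatNum i M,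
      ∀ M : 𝓜, T.Gen M → ∀ i, T.RatNum i M,
      ∀ M N : 𝓜, T.Gen M → T.Gen N → ∀ f : M ⟶ N, T.null f → f = 0].TFAE :=
  NumMot.final hT S hS ω hω

end Pool.Agent.Results.MP_4960c7_ag.ProductsOfHypersurfaces
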