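import Pool.Agent.Q56.CP.Const

/-!
# Rational and numerical equivalence for the products of a fixed variety with the varieties
generated by another one

Let `X` be a variety of dimension at most `d`, with sum of Betti numbers at most `b`, over the field
with `q` elements, and `Y` a variety over this field of dimension at most `t` whose homologically
trivial self-correspondences of degree zero are nilpotent (for example a product of curves). Let
`M = relBound b d t = ((2 b!)! + t + 1) (4 (d + 1) b!) ^ (2 ^ b)`. Rational and numerical equivalence
coincide and the strong Tate conjecture holds for all products `Z × Y`, for `Z` with motive generated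
by the powers of `X`, if and only if this holds for the one variety `X ^ (2 M) × Y`, or for
`X ^ M × Y` with nilpotence for `X ^ M`. The number `M` depends on `Y` only through its dimension.
-/

open Pool.Agent.H914 Pool.Agent.H914.VarClass.Obj Pool.Agent.W492.BB Pool.Agent.TH133
  Pool.Agent.Q56.FR Pool.Agent.Q56.CP Pool.Agent.Y133.Half

universe u v w

namespace Pool.Agent.Results.MP_4960c7_ag.ProductsWithFixedVariety

/-- **Rational and numerical equivalence and the Tate conjecture for the products of `Y` with the
varieties generated by `X` are decided by one explicit product `X ^ n × Y`.** -/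
theorem result {k : Type u} [Field k] {𝒱 : VarClass k} (C : TheoryData.{u, v, 0} 𝒱 ℚ)
    [IsChowProj C] {K : Type w} [Field K] [CharZero K] (H : WeilTheoryData.{u, v, w} C K)
    [IsWeilProj H] (p a : ℕ) [Fact p.Prime] (ha : 0 < a) (Fr : ∀ X : 𝒱.Obj, X ⟶ X)
    (hFr : IsFrobTheory H Fr p a) (X Y : 𝒱.Obj) (b d t : ℕ)
    (hb : Module.finrank K (H.A X) ≤ b) (hd : X.dim ≤ d) (ht : Y.dim ≤ t) (hY : Nilp H Y) :
    List.TFAE [
      ∀ Z, IsSumFactor C (powersOf X) Z →
        RatNum H (Z.prod Y) ∧ StrongTate H Fr (p ^ a) (Z.prod Y),
      RatNum H ((pw X (2 * relBound b d t - 1)).prod Y) ∧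
        StrongTate H Fr (p ^ a) ((pw X (2 * relBound b d t - 1)).prod Y),
      Nilp H (pw X (relBound b d t - 1)) ∧ RatNum H ((pw X (relBound b d t - 1)).prod Y) ∧
        StrongTate H Fr (p ^ a) ((pw X (relBound b d t - 1)).prod Y)] :=
  rel_main hFr ha hb hd ht hY

end Pool.Agent.Results.MP_4960c7_ag.ProductsWithFixedVariety
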